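import Pool.Agent.Lib.MP_c6938d_co.Main

/-!
# Multi-matchings in scaled low-frequency covering designs: affirmative answer to Q1

For every `d ≥ 3` there is a threshold `β > 0`, attained by some covering design with `d` blocks,
below which the scaled version of every covering design with `d` blocks admits a multi-matching.
-/

namespace Pool.Agent.Results.MP_c6938d_co.MultiMatching

open Pool.Agent.Lib.MP_c6938d_co

/-- **Main theorem.** For every `d ≥ 3` there is `β > 0` such that some `(v, k, 2)` covering design
with `d` (pairwise distinct) blocks has frequency at most `β`, and the scaled version of every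
`(v, k, 2)` covering design with `d` blocks and frequency at most `β` admits a multi-matching. -/
theorem result : ∀ d : ℕ, 3 ≤ d → ∃ β : ℝ, 0 < β ∧
    (∃ v k : ℕ, 2 ≤ v ∧ 2 ≤ k ∧ ∃ B : Fin d → Finset (Fin v), Function.Injective B ∧
      IsCoveringDesign v k d B ∧ freq v k d ≤ β) ∧
    ∀ v k : ℕ, 2 ≤ v → 2 ≤ k → ∀ B : Fin d → Finset (Fin v), IsCoveringDesign v k d B →
      freq v k d ≤ β → AdmitsMultiMatching (scaled B) :=
  main_theorem

end Pool.Agent.Results.MP_c6938d_co.MultiMatching
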